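import Pool.Agent.REV.Final5

/-!
# MP_eef7f3_lc: short covering runs for arbitrary VASS with few irrecoverable steps

For EVERY VASS: call a step `c → c'` of a run recoverable if some run from `c'` covers `c` again. If
some covering run has cost `K` (recoverable steps are free, other steps cost 1, and there are rebates
for runs inside components with a cycle space of dimension at most two, for cycle-monotone runs and
for powers of closed words), then there is a covering run of length at most
`max 1 ‖y‖ * (K + 1) ^ (4 (g + 1)) * poly(n, d, M) ^ f(g)`, with `f` explicit and independent of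
everything, `f(g) = 2 ^ O(g log g)`.
-/

namespace Pool.Agent.Results.MP_eef7f3_lc.FewIrrecoverable

open Pool.Agent.EEF Pool.Agent.REV

theorem result (Q : Type) [Fintype Q] (d : ℕ) (T : VASS Q d) (s t : Q) (x y y' : Fin d → ℕ)
    (K : ℕ) (h : FewIrr2 T K s x t y') (hy : ∀ k, y k ≤ y' k) :
    ∃ w, Covers T s x t y w ∧ w.length ≤ max 1 (supN y) * ((K + 1) ^ (4 * (geomDim T + 1)) *
      ((400 * Fintype.card Q * (d + 1) ^ 3 * (maxNorm T + 1) ^ 3) ^ 4000) ^
        (100 ^ geomDim T * (geomDim T + 1) ^ (geomDim T + 1))) := by
  obtain ⟨w', y'', h1, h2, h3⟩ := irr2_main h hy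
  exact ⟨w', ⟨y'', h1, h2⟩, h3⟩

end Pool.Agent.Results.MP_eef7f3_lc.FewIrrecoverable
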