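import Pool.Agent.EE2.Phas2

/-!
# MP_eef7f3_lc: short covering runs for arbitrary VASS along runs with few phases

For EVERY VASS: if some covering run consists of `K` phases (a phase is a run in a set of transitions
whose cycles change every counter in one direction only, a run in a set of transitions whose strongly
connected components have cycle spaces of dimension at most two, or a power of a closed word `β`,
which counts `β.length + 1`), then there is a covering run of length at most
`max 1 ‖y‖ * ((K + 1) ^ 4 * poly(n, d, M)) ^ (g + 1)`.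
-/

namespace Pool.Agent.Results.MP_eef7f3_lc.FewPhases

open Pool.Agent.EEF Pool.Agent.EE2

theorem result (Q : Type) [Fintype Q] (d : ℕ) (T : VASS Q d) (s t : Q) (x y y' : Fin d → ℕ)
    (K : ℕ) (h : FewPh T K s x t y') (hy : ∀ k, y k ≤ y' k) :
    ∃ w, Covers T s x t y w ∧ w.length ≤ max 1 (supN y) *
      ((K + 1) ^ 4 * (2 * Fintype.card Q * (d + 1) * (maxNorm T + 1)) ^ 496) ^
        (geomDim T + 1) := by
  obtain ⟨w', y'', h1, h2, h3⟩ := fewPh_main h hy
  exact ⟨w', ⟨y'', h1, h2⟩, h3⟩

end Pool.Agent.Results.MP_eef7f3_lc.FewPhases
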