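import Pool.Agent.EE3.SeqMain
import Pool.Agent.EE3.Kap

/-!
# MP_eef7f3_lc: strong linearity of coverability when each component changes at most three counters

Let `V` be a VASS with any number of counters such that the closed walks through each state change at
most three counters (always the case for three counters). If some run from `s(x)` covers `t(y)`, then one
of length at most `max(1, ‖y‖) * ((8n(M+1))^20000000000)^(3g+1)` does. In particular Q1 holds for all VASS
with three counters.
-/

namespace Pool.Agent.Results.MP_eef7f3_lc.ThreePerComponent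

open Pool.Agent.EEF

theorem result (Q : Type) [Fintype Q] (d : ℕ) (T : VASS Q d)
    (h3 : ∀ p, ∃ K : Finset (Fin d), K.card ≤ 3 ∧ ∀ w, Walk T p w p → ∀ k, k ∉ K → w.sum k = 0)
    (s t : Q) (x y : Fin d → ℕ) (h : ∃ w, Covers T s x t y w) :
    ∃ w, Covers T s x t y w ∧ w.length ≤ max 1 (supN y) *
      ((8 * Fintype.card Q * (maxNorm T + 1)) ^ 20000000000) ^ (3 * geomDim T + 1) :=
  Pool.Agent.EE3.seq_main (3 * geomDim T) h3 (Pool.Agent.EE3.kap_le h3) h

end Pool.Agent.Results.MP_eef7f3_lc.ThreePerComponent
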