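import Pool.Agent.REV.Undo4

/-!
# MP_eef7f3_lc: strong linearity of coverability when every component is planar, cycle-monotone or
has only transitions which can be undone up to coverage

Q1 holds, with `f(g) = 24^g`, for every VASS (any number of counters, any geometric dimension) which
satisfies the following after some redundant transitions have been deleted: each strongly connected
component has a cycle space of dimension at most two, or closed walks which change every counter in
one direction only, or only transitions which can be undone up to coverage. In particular it holds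
for all reversible VASS.
-/

namespace Pool.Agent.Results.MP_eef7f3_lc.UndoableLinear

open Pool.Agent.EEF Pool.Agent.REV

theorem result (Q : Type) [Fintype Q] (d : ℕ) (T : VASS Q d)
    (hT : (∀ p v q, (p, v, q) ∈ T → (q, -v, p) ∈ T) ∨ ∃ T₀, CoreOf T₀ T ∧ PlanarMonoOrUndo T₀)
    (s t : Q) (x y : Fin d → ℕ) (h : ∃ w, Covers T s x t y w) :
    ∃ w, Covers T s x t y w ∧ w.length ≤ max 1 (supN y) *
      ((29 * Fintype.card Q * (d + 1) ^ 3 * (maxNorm T + 1) ^ 2) ^ 1609) ^ (24 ^ geomDim T) := by
  obtain ⟨T₀, h₀, hT₀⟩ : ∃ T₀, CoreOf T₀ T ∧ PlanarMonoOrUndo T₀ := by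
    rcases hT with h | h
    · refine ⟨T, core_self T, fun r => Or.inr (Or.inr fun p v q hpq _ _ =>
        ⟨[-v], fun k => (-v k).toNat, .cons (h p v q hpq) (fun k => ?_) (.nil _ _),
          fun k => le_rfl⟩)⟩
      rw [Pi.neg_apply]
      omega
    · exact h
  obtain ⟨w, y', hrun, hy⟩ := h
  exact core_main3 h₀ hT₀ hrun hy

end Pool.Agent.Results.MP_eef7f3_lc.UndoableLinear
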